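import Mathlib

set_option autoImplicit false

namespace Pool.Agent.Results.MP_0c5bac_gt.Baire

open Set Filter Topology

variable {X Y : Type*} [TopologicalSpace X] [TopologicalSpace Y]

/-- families of nonempty open sets with pairwise disjoint images -/
def Fam (f : X → Y) (P : Set X → Prop) (F : Set (Set X)) : Prop :=
  (∀ W ∈ F, P W) ∧ F.Pairwise fun W W' => Disjoint (f '' W) (f '' W')

theorem step [RegularSpace X] {f : X → Y} (hf : Continuous f) (ho : IsOpenMap f)
    (F : Set (Set X)) (hF : ∀ W ∈ F, IsOpen W) {U : Set X} (hU : IsOpen U) (hd : Dense U) :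
    ∃ F' : Set (Set X), Fam f (fun W => IsOpen W ∧ closure W ⊆ U ∧ ∃ V ∈ F, closure W ⊆ V) F' ∧
      (⋃ W ∈ F, f '' W) ⊆ closure (⋃ W ∈ F', f '' W) := by
  obtain ⟨M, hM⟩ := zorn_subset {F' | Fam f (fun W => IsOpen W ∧ closure W ⊆ U ∧ ∃ V ∈ F, closure W ⊆ V) F'}
    (fun c hc hch => ⟨⋃₀ c, ⟨fun W ⟨a, ha, hW⟩ => (hc ha).1 W hW, by
      rintro W ⟨a, ha, hW⟩ W' ⟨b, hb, hW'⟩ hne
      rcases hch.total ha hb with h | h
      · exact (hc hb).2 (h hW) hW' hne
      · exact (hc ha).2 hW (h hW') hne⟩, fun s hs => subset_sUnion_of_mem hs⟩)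
  refine ⟨M, hM.1, ?_⟩
  intro y hy
  by_contra hy'
  obtain ⟨V, hV, x, hx, rfl⟩ : ∃ V ∈ F, ∃ x ∈ V, f x = y := by simpa using hy
  have h1 : IsOpen (V ∩ f ⁻¹' (closure (⋃ W ∈ M, f '' W))ᶜ) :=
    (hF V hV).inter (isClosed_closure.isOpen_compl.preimage hf)
  obtain ⟨z, hz, hzU⟩ := hd.inter_open_nonempty _ h1 ⟨x, hx, hy'⟩
  obtain ⟨C, hC, hCc, hCs⟩ := exists_mem_nhds_isClosed_subset ((h1.inter hU).mem_nhds ⟨hz, hzU⟩)
  have h2 : closure (interior C) ⊆ C := closure_minimal interior_subset hCc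
  have h3 : ∀ W ∈ M, Disjoint (f '' interior C) (f '' W) := fun W hW => by
    rw [Set.disjoint_left]
    rintro _ ⟨w, hw, rfl⟩ hw'
    exact (hCs (interior_subset hw)).1.2 (subset_closure (mem_biUnion hW hw'))
  have h4 : insert (interior C) M ⊆ M := hM.2 ⟨by
      rintro W (rfl | hW)
      · exact ⟨isOpen_interior, fun w hw => (hCs (h2 hw)).2, V, hV, fun w hw => (hCs (h2 hw)).1.1⟩
      · exact hM.1.1 W hW, hM.1.2.insert_of_symm fun W hW _ => h3 W hW⟩ (subset_insert _ _)
  have h5 := h3 _ (h4 (mem_insert _ _))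
  exact Set.disjoint_left.1 h5 ⟨z, mem_interior_iff_mem_nhds.2 hC, rfl⟩ ⟨z, mem_interior_iff_mem_nhds.2 hC, rfl⟩

theorem baire [RegularSpace X] [BaireSpace Y] {f : X → Y} (hf : Continuous f) (ho : IsOpenMap f)
    (hk : ∀ y, IsCompact (f ⁻¹' {y})) : BaireSpace X := by
  refine ⟨fun U hU hd => dense_iff_inter_open.2 fun V hV hne => ?_⟩
  have h1 := fun n (F : {F : Set (Set X) // ∀ W ∈ F, IsOpen W}) => step hf ho F.1 F.2 (hU n) (hd n)
  choose g hg hg' using h1
  let F : ℕ → {F : Set (Set X) // ∀ W ∈ F, IsOpen W} := fun n => Nat.rec ⟨{V}, by simpa using hV⟩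
    (fun n F => ⟨g n F, fun W hW => ((hg n F).1 W hW).1⟩) n
  have hF : ∀ n, (F (n + 1)).1 = g n (F n) := fun n => rfl
  let O : ℕ → Set Y := fun n => ⋃ W ∈ (F n).1, f '' W
  have hO : ∀ n, IsOpen (O n) := fun n => isOpen_biUnion fun W hW => ho W ((F n).2 W hW)
  have hO' : ∀ n, f '' V ⊆ closure (O n) := by
    intro n
    induction n with
    | zero => exact fun y hy => subset_closure (mem_biUnion (mem_singleton V) hy)
    | succ n ih => exact ih.trans (closure_minimal (hg' n (F n)) isClosed_closure)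
  have h2 : Dense (⋂ n, O n ∪ (closure (f '' V))ᶜ) := by
    refine dense_iInter_of_isOpen (fun n => (hO n).union isClosed_closure.isOpen_compl) fun n y => ?_
    rw [closure_union]
    by_cases hy : y ∈ closure (f '' V)
    · exact Or.inl (closure_minimal (hO' n) isClosed_closure hy)
    · exact Or.inr (subset_closure hy)
  obtain ⟨y, hy, hy'⟩ := h2.inter_open_nonempty _ (ho V hV) (hne.image f)
  have h3 : ∀ n, ∃ W ∈ (F n).1, y ∈ f '' W := fun n => by
    rcases mem_iInter.1 hy' n with h | h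
    · simpa only [O, mem_iUnion, exists_prop] using h
    · exact absurd (subset_closure hy) h
  choose W hW hyW using h3
  have hp : ∀ n, (F n).1.Pairwise fun W W' => Disjoint (f '' W) (f '' W') := by
    rintro (_ | n)
    · exact pairwise_singleton _ _
    · exact (hg n (F n)).2
  have h4 : ∀ n, closure (W (n + 1)) ⊆ W n ∩ U n := fun n => by
    obtain ⟨-, h, V', hV', h'⟩ := (hg n (F n)).1 _ (hW (n + 1))
    have : V' = W n := by
      by_contra hne
      exact Set.disjoint_left.1 (hp n hV' (hW n) hne)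
        (image_mono (subset_closure.trans h') (hyW (n + 1))) (hyW n)
    exact subset_inter (this ▸ h') h
  obtain ⟨x, hx⟩ := IsCompact.nonempty_iInter_of_sequence_nonempty_isCompact_isClosed
    (X := f ⁻¹' {y}) (fun n => (↑) ⁻¹' closure (W (n + 1)))
    (fun n x hx => subset_closure (h4 _ hx).1)
    (fun n => by obtain ⟨x, hx, hxy⟩ := hyW (n + 1); exact ⟨⟨x, hxy⟩, subset_closure hx⟩)
    (by have := isCompact_iff_compactSpace.1 (hk y)
        exact (isClosed_closure.preimage continuous_subtype_val).isCompact)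
    (fun n => isClosed_closure.preimage continuous_subtype_val)
  rw [mem_iInter] at hx
  have h5 : W 0 = V := hW 0
  exact ⟨x, h5 ▸ (h4 0 (hx 0)).1, mem_iInter.2 fun n => (h4 n (hx n)).2⟩

theorem result (G : Type*) [Group G] [TopologicalSpace G] [IsTopologicalGroup G]
    (K : Subgroup G) [K.Normal] (hK : IsCompact (K : Set G)) [BaireSpace (G ⧸ K)] :
    BaireSpace G := by
  refine baire (f := ((↑) : G → G ⧸ K)) QuotientGroup.continuous_mk QuotientGroup.isOpenMap_coe fun y => ?_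
  obtain ⟨g, rfl⟩ := QuotientGroup.mk_surjective y
  have : ((↑) : G → G ⧸ K) ⁻¹' {(g : G ⧸ K)} = (fun k => g * k) '' (K : Set G) := by
    ext x
    simp only [mem_preimage, mem_singleton_iff, mem_image, SetLike.mem_coe]
    rw [eq_comm, QuotientGroup.eq]
    exact ⟨fun h => ⟨_, h, by simp⟩, by rintro ⟨k, hk, rfl⟩; simpa using hk⟩
  rw [this]
  exact hK.image (by fun_prop)

end Pool.Agent.Results.MP_0c5bac_gt.Baire
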